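import Pool.Agent.H.MP_b41e65_an.B

namespace Pool.Agent.Results.MP_b41e65_an.Yes

open Pool.Agent.H.MP_b41e65_an Set Metric Filter Topology
open scoped ENNReal NNReal

/-- Euclidean space -/
abbrev E (d : ℕ) := EuclideanSpace ℝ (Fin d)

/-- least number of open sets of diameter at most `r` needed to cover `A` -/
noncomputable def covN {d : ℕ} (r : ℝ) (A : Set (E d)) : ℕ∞ :=
  ⨅ (C : Set (Set (E d))) (_ : ∀ U ∈ C, IsOpen U ∧ ediam U ≤ ENNReal.ofReal r) (_ : A ⊆ ⋃₀ C),
    C.encard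

/-- Assouad dimension -/
noncomputable def dimA {d : ℕ} (F : Set (E d)) : ℝ≥0∞ :=
  ⨅ (s : ℝ≥0) (_ : ∃ C : ℝ, 0 < C ∧ ∀ R r : ℝ, 0 < r → r < R → ∀ x ∈ F,
    (covN r (ball x R ∩ F) : ℝ≥0∞) ≤ ENNReal.ofReal (C * (R / r) ^ (s : ℝ))), (s : ℝ≥0∞)

/-- linear isometries -/
abbrev Orth (d : ℕ) := E d ≃ₗᵢ[ℝ] E d

/-- the similarity with ratio `c`, orthogonal part `O` and translation `t` -/
noncomputable def sim {d : ℕ} (c : ℝ) (O : Orth d) (t : E d) (x : E d) : E d := c • O x + t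

/-- the closure of the group generated by `S` contains the special orthogonal group -/
def DenseRot {d : ℕ} (S : Set (Orth d)) : Prop :=
  ∀ A : Orth d, SO A → ∀ ε > 0, ∃ g ∈ Subgroup.closure S, Close A g ε

/-- orthogonal projection onto `V` -/
noncomputable def pr {d : ℕ} (V : Submodule ℝ (E d)) (x : E d) : E d := V.starProjection x

theorem basis {d : ℕ} (V : Submodule ℝ (E d)) : ∃ e : Fin (Module.finrank ℝ V) → E d,
    (∀ i, e i ∈ V) ∧ Orthonormal ℝ e ∧ ∀ x ∈ V, ∑ i, inner ℝ (e i) x • e i = x := by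
  let b := stdOrthonormalBasis ℝ V
  refine ⟨fun i => b i, fun i => (b i).2, (V.subtypeₗᵢ.orthonormal_comp_iff).2 b.orthonormal,
    fun x hx => ?_⟩
  have := congrArg Subtype.val (b.sum_repr' ⟨x, hx⟩)
  simpa using this

theorem norm_le {d k : ℕ} {e : Fin k → E d} (he : Orthonormal ℝ e) (a : Fin k → ℝ) {h : ℝ}
    (ha : ∀ i, |a i| ≤ h) : ‖∑ i, a i • e i‖ ≤ k * h := by
  refine (norm_sum_le _ _).trans ((Finset.sum_le_card_nsmul _ _ h fun i _ => ?_).trans (by simp))
  rw [norm_smul, he.1, mul_one]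
  exact ha i

theorem upper {d : ℕ} (V : Submodule ℝ (E d)) {G : Set (E d)} (hG : G ⊆ V) :
    dimA G ≤ Module.finrank ℝ V := by
  classical
  obtain ⟨e, -, he, hs⟩ := basis V
  generalize Module.finrank ℝ V = k at e he hs
  refine iInf₂_le_of_le (k : ℝ≥0) ⟨(4 * (k + 1) + 3) ^ k, by positivity, ?_⟩ (by simp)
  intro R r hr hR x hx
  set h := r / (2 * (k + 1)) with hh
  have h0 : 0 < h := by positivity
  set L := ⌈R / h⌉₊ with hL
  have h1 : covN r (ball x R ∩ G) ≤ ((2 * L + 1) ^ k : ℕ) := by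
    refine iInf_le_of_le ((fun n : Fin k → ℤ => ball (x + ∑ i, (n i * h) • e i) (r / 2)) ''
      (Fintype.piFinset fun _ : Fin k => Finset.Icc (-(L : ℤ)) L : Finset (Fin k → ℤ))) (iInf₂_le_of_le ?_ ?_
        ((encard_image_le _ _).trans ?_))
    · rintro _ ⟨n, -, rfl⟩
      refine ⟨isOpen_ball, ediam_le_of_forall_dist_le fun a ha b hb => ?_⟩
      linarith [dist_triangle_right a b (x + ∑ i, (n i * h) • e i), mem_ball.1 ha, mem_ball.1 hb]
    · rintro z ⟨hz1, hz2⟩
      refine ⟨_, ⟨fun i => ⌊inner ℝ (e i) (z - x) / h⌋, ?_, rfl⟩, ?_⟩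
      · rw [Finset.mem_coe, Fintype.mem_piFinset]
        intro i
        have h2 := abs_real_inner_le_norm (e i) (z - x)
        rw [he.1, one_mul, abs_le] at h2
        have h3 := mem_ball_iff_norm.1 hz1
        have h4 := Nat.le_ceil (R / h)
        have h5 : inner ℝ (e i) (z - x) / h ≤ R / h := by gcongr; linarith
        have h6 : -R / h ≤ inner ℝ (e i) (z - x) / h := by gcongr; linarith
        rw [neg_div] at h6
        rw [Finset.mem_Icc, Int.le_floor, Int.floor_le_iff]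
        push_cast
        constructor <;> linarith
      · rw [mem_ball_iff_norm, ← sub_sub]
        nth_rewrite 1 [← hs _ (V.sub_mem (hG hz2) (hG hx))]
        rw [← Finset.sum_sub_distrib]
        simp only [← sub_smul]
        refine (norm_le he _ (h := h) fun i => ?_).trans_lt ?_
        · have a1 := Int.floor_le (inner ℝ (e i) (z - x) / h)
          have a2 := Int.lt_floor_add_one (inner ℝ (e i) (z - x) / h)
          rw [le_div_iff₀ h0] at a1
          rw [div_lt_iff₀ h0] at a2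
          exact abs_le.2 ⟨by linarith, by linarith⟩
        · rw [hh, mul_div_assoc', div_lt_div_iff₀ (by positivity) (by positivity)]
          nlinarith
    · rw [encard_coe_eq_coe_finsetCard, Fintype.card_piFinset]
      simp only [Int.card_Icc, Finset.prod_const, Finset.card_univ, Fintype.card_fin]
      rw [show ((L : ℤ) + 1 - -L).toNat = 2 * L + 1 by omega]
  refine (ENat.toENNReal_le.2 h1).trans ?_
  rw [ENat.toENNReal_coe, ← ENNReal.ofReal_natCast]
  refine ENNReal.ofReal_le_ofReal ?_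
  have h2 := Nat.ceil_lt_add_one (show 0 ≤ R / h by have := hr.trans hR; positivity)
  have h3 : 1 < R / r := (one_lt_div hr).2 hR
  have h4 : R / h = 2 * (k + 1) * (R / r) := by rw [hh]; field_simp
  rw [NNReal.coe_natCast, Real.rpow_natCast, ← mul_pow]
  push_cast
  gcongr
  linarith

theorem lower {d : ℕ} {F : Set (E d)} {D : ℝ} (H : Hyp F D) (V : Submodule ℝ (E d)) (hV : V ≠ ⊤) :
    (Module.finrank ℝ V : ℝ≥0∞) ≤ dimA (pr V '' F) := by
  classical
  obtain ⟨e, heV, he, -⟩ := basis V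
  generalize Module.finrank ℝ V = k at e he heV
  refine le_iInf₂ fun s hs => ?_
  obtain ⟨C, hC, hs⟩ := hs
  by_contra h
  have hs1 : (s : ℝ) < k := by
    have : s < k := by exact_mod_cast not_le.1 h
    exact_mod_cast this
  have key : ∀ M : ℕ, ((M + 1 : ℕ) : ℝ) ^ k ≤ C * (2 * (k + 1) * (M + 1 : ℕ)) ^ (s : ℝ) := by
    intro M
    obtain ⟨l, hl, b, hy⟩ := H.real (H.grid hV e heV M Finset.univ)
    have hy' : ∀ m : Fin k → Fin (M + 1), ∃ y ∈ F,
        ‖pr V y - b - l • ∑ i, ((m i : ℕ) : ℝ) • e i‖ ≤ l / 5 := fun m =>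
      hy _ ⟨fun i => m i, fun i => Nat.lt_succ_iff.1 (m i).2, rfl⟩
    choose y hy1 hy2 using hy'
    have hd : ∀ m n, ‖pr V (y m) - pr V (y n) - l • ∑ i, (((m i : ℕ) : ℝ) - (n i : ℕ)) • e i‖ ≤
        2 * l / 5 := fun m n => by
      have := norm_sub_le (pr V (y m) - b - l • ∑ i, ((m i : ℕ) : ℝ) • e i)
        (pr V (y n) - b - l • ∑ i, ((n i : ℕ) : ℝ) • e i)
      refine le_of_eq_of_le (congrArg _ ?_) (this.trans (by linarith [hy2 m, hy2 n]))
      simp only [sub_smul, Finset.sum_sub_distrib, smul_sub]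
      abel
    have hM : (1 : ℝ) ≤ (k + 1) * (M + 1 : ℕ) := by
      push_cast
      nlinarith [(by positivity : (0 : ℝ) ≤ k), (by positivity : (0 : ℝ) ≤ M)]
    have h1 := hs (l * ((k + 1) * (M + 1 : ℕ))) (l / 2) (by positivity) (by nlinarith) _
      ⟨y 0, hy1 0, rfl⟩
    rw [show l * ((k + 1) * (M + 1 : ℕ)) / (l / 2) = 2 * (k + 1) * (M + 1 : ℕ) by field_simp] at h1
    have h2 : (((M + 1) ^ k : ℕ) : ℕ∞) ≤ covN (l / 2)
        (ball (pr V (y 0)) (l * ((k + 1) * (M + 1 : ℕ))) ∩ pr V '' F) := by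
      refine le_iInf fun Q => le_iInf₂ fun hD1 hD2 => ?_
      have h3 : ∀ m, ∃ U ∈ Q, pr V (y m) ∈ U := fun m => hD2 ⟨by
        have h4 := norm_le he (fun i => ((m i : ℕ) : ℝ) - ((0 : Fin k → Fin (M + 1)) i : ℕ))
          (h := M) fun i => by
            simp only [Pi.zero_apply, Fin.val_zero, Nat.cast_zero, sub_zero, Nat.abs_cast]
            exact_mod_cast Nat.lt_succ_iff.1 (m i).2
        have h5 := norm_le_norm_sub_add (pr V (y m) - pr V (y 0))
          (l • ∑ i, (((m i : ℕ) : ℝ) - ((0 : Fin k → Fin (M + 1)) i : ℕ)) • e i)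
        rw [norm_smul, Real.norm_eq_abs, abs_of_pos hl] at h5
        have h6 := mul_le_mul_of_nonneg_left h4 hl.le
        rw [mem_ball_iff_norm]
        push_cast
        nlinarith [hd m 0, (by positivity : (0 : ℝ) ≤ l * k), (by positivity : (0 : ℝ) ≤ l * M)],
        y m, hy1 m, rfl⟩
      choose U hU1 hU2 using h3
      have h4 := encard_le_encard_of_injOn (s := univ) (t := Q) (f := U) (fun m _ => hU1 m) (by
        intro m _ n _ hmn
        have h5 := (edist_le_ediam_of_mem (hU2 m) (hmn ▸ hU2 n)).trans (hD1 _ (hU1 m)).2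
        rw [edist_dist, ENNReal.ofReal_le_ofReal_iff (by positivity), dist_eq_norm] at h5
        have h6 := norm_le_norm_sub_add (l • ∑ i, (((m i : ℕ) : ℝ) - (n i : ℕ)) • e i)
          (pr V (y m) - pr V (y n))
        rw [norm_sub_rev, norm_smul, Real.norm_eq_abs, abs_of_pos hl] at h6
        have h7 : ‖∑ i, (((m i : ℕ) : ℝ) - (n i : ℕ)) • e i‖ < 1 := by
          refine lt_of_mul_lt_mul_left ?_ hl.le
          linarith [hd m n]
        ext i
        have h8 := abs_real_inner_le_norm (e i) (∑ i, (((m i : ℕ) : ℝ) - (n i : ℕ)) • e i)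
        rw [he.inner_right_fintype, he.1, one_mul] at h8
        have h9 : |((m i : ℕ) : ℤ) - (n i : ℕ)| < 1 := by exact_mod_cast h8.trans_lt h7
        have := abs_lt.1 h9
        omega)
      simpa using h4
    have h3 := (ENat.toENNReal_le.2 h2).trans h1
    rw [ENat.toENNReal_coe, ← ENNReal.ofReal_natCast,
      ENNReal.ofReal_le_ofReal_iff (by positivity)] at h3
    exact_mod_cast h3
  have h5 : Tendsto (fun M : ℕ => ((M + 1 : ℕ) : ℝ) ^ (k - (s : ℝ))) atTop atTop :=
    (tendsto_rpow_atTop (by linarith)).comp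
      (tendsto_natCast_atTop_atTop.comp (tendsto_add_atTop_nat 1))
  obtain ⟨M, hM1⟩ := (h5.eventually_gt_atTop (C * (2 * (k + 1)) ^ (s : ℝ))).exists
  have hM : (0 : ℝ) < (M + 1 : ℕ) := by positivity
  have h6 := key M
  rw [Real.mul_rpow (by positivity) hM.le, ← mul_assoc] at h6
  rw [Real.rpow_sub hM, Real.rpow_natCast, lt_div_iff₀ (by positivity)] at hM1
  linarith

theorem result (d k : ℕ) (hk : k < d) (ι : Type) [Finite ι] (c : ι → ℝ) (O : ι → Orth d)
    (t : ι → E d) (hc : ∀ i, 0 < c i ∧ c i < 1) (F : Set (E d)) (hF : IsCompact F)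
    (h2 : F.Nontrivial) (hS : F = ⋃ i, sim (c i) (O i) (t i) '' F) (hO : DenseRot (range O))
    (V : Submodule ℝ (E d)) (hV : Module.finrank ℝ V = k) : dimA (pr V '' F) = k := by
  obtain ⟨D, hD⟩ := hF.isBounded.exists_norm_le
  have gen : ∀ i, Sim F (c i) (O i) (t i) := fun i => ⟨(hc i).1, (hc i).2.le, fun x hx =>
    hS ▸ mem_iUnion.2 ⟨i, x, hS ▸ hx, rfl⟩⟩
  obtain ⟨q, hq1, hq0, hq⟩ : ∃ q : ℝ, q < 1 ∧ 0 ≤ q ∧ ∀ i, c i ≤ q := by
    rcases isEmpty_or_nonempty ι with h | h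
    · exact ⟨0, one_pos, le_rfl, fun i => h.elim i⟩
    · obtain ⟨i, hi⟩ := Finite.exists_max c
      exact ⟨c i, (hc i).2, (hc i).1.le, hi⟩
  have H : Hyp F D := by
    refine ⟨hD, h2, fun A hA ε hε => ?_, fun z hz δ hδ => ?_⟩
    · obtain ⟨g, hg, h1⟩ := hO A hA _ (half_pos hε)
      have : g ∈ clos (mon F) := (Subgroup.closure_le _).2 (by
        rintro _ ⟨i, rfl⟩ ε hε
        exact ⟨O i, ⟨_, _, gen i⟩, fun x => by simp; positivity⟩) hg
      obtain ⟨B, hB, h3⟩ := this _ (half_pos hε)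
      exact ⟨B, hB, add_halves ε ▸ h1.trans h3⟩
    · have key : ∀ n : ℕ, ∃ l A b, Sim F l A b ∧ l ≤ q ^ n ∧ ∃ y ∈ F, l • A y + b = z := by
        intro n
        induction n with
        | zero => exact ⟨1, 1, 0, Sim.one, by simp, z, hz, by simp⟩
        | succ n ih =>
          obtain ⟨l, A, b, h1, h3, y, hy, h4⟩ := ih
          obtain ⟨i, x, hx, rfl⟩ := mem_iUnion.1 (hS ▸ hy : y ∈ ⋃ i, sim (c i) (O i) (t i) '' F)
          refine ⟨_, _, _, h1.comp (gen i), ?_, x, hx, ?_⟩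
          · rw [pow_succ]
            exact mul_le_mul h3 (hq i) (hc i).1.le (by positivity)
          · simpa [sim, smul_smul, add_assoc] using h4
      have hD0 : 0 ≤ D := (norm_nonneg _).trans (hD z hz)
      obtain ⟨n, hn⟩ := exists_pow_lt_of_lt_one (show 0 < δ / (2 * D + 1) by positivity) hq1
      obtain ⟨l, A, b, h1, h3, y, hy, rfl⟩ := key n
      have h4 := h3.trans hn.le
      rw [le_div_iff₀ (by positivity)] at h4
      refine ⟨l, A, b, h1, by nlinarith [h1.1], fun x hx => ?_⟩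
      rw [add_sub_add_right_eq_sub, ← smul_sub, ← map_sub, norm_smul, A.norm_map, Real.norm_eq_abs,
        abs_of_pos h1.1]
      nlinarith [norm_sub_le x y, hD x hx, hD y hy, h1.1]
  subst hV
  refine le_antisymm (upper V ?_) (lower H V ?_)
  · rintro _ ⟨x, -, rfl⟩
    exact V.starProjection_apply_mem x
  · rintro rfl
    simp at hk

end Pool.Agent.Results.MP_b41e65_an.Yes
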